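import Pool.Agent.Helper75.PZ.Stmts2

/-! Row PH of the sheet `Pool.Agent.Helper75.PZ.Stmts2`. -/

set_option autoImplicit false

universe u

open Module TensorProduct

namespace Pool.Agent.Helper92.PZ

open Pool.Agent.Helper75.PZ

section

variable {F M : Type u} [Field F] [Field M] [Algebra F M]

/-- the twist -/
noncomputable def ph (σ : M ≃ₐ[F] M) (h : HS M) : HS M where
  coeff γ := (-1 : M) ^ (n2 γ) * σ (h.coeff γ)
  isPWO_support' := h.isPWO_support.mono (by
    intro γ hγ h0
    apply hγ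
    show (-1 : M) ^ (n2 γ) * σ (h.coeff γ) = 0
    rw [h0, map_zero, mul_zero])

lemma ph_coeff (σ : M ≃ₐ[F] M) (h : HS M) (γ : G2) :
    (ph σ h).coeff γ = (-1 : M) ^ (n2 γ) * σ (h.coeff γ) := rfl

lemma neg_one_zpow_ne (n : ℤ) : (-1 : M) ^ n ≠ 0 := zpow_ne_zero _ (neg_ne_zero.2 one_ne_zero)

lemma ph_support (σ : M ≃ₐ[F] M) (h : HS M) : (ph σ h).support = h.support := by
  ext γ
  rw [HahnSeries.mem_support, HahnSeries.mem_support, ph_coeff]
  constructor
  · intro h1 h2
    exact h1 (by rw [h2, map_zero, mul_zero])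
  · intro h1 h2
    rcases mul_eq_zero.1 h2 with h3 | h3
    · exact neg_one_zpow_ne _ h3
    · exact h1 ((map_eq_zero_iff _ σ.injective).1 h3)

lemma n2_add (a b : G2) : n2 (a + b) = n2 a + n2 b := rfl

lemma ph_mul (σ : M ≃ₐ[F] M) (x y : HS M) : ph σ (x * y) = ph σ x * ph σ y := by
  ext γ
  rw [ph_coeff, HahnSeries.coeff_mul, HahnSeries.coeff_mul, map_sum, Finset.mul_sum]
  refine Finset.sum_congr ?_ ?_
  · ext ij
    simp only [Finset.mem_antidiagonal, ph_support]
  · intro ij hij
    rw [Finset.mem_antidiagonal] at hij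
    rw [ph_coeff, ph_coeff, ← hij.2.2, n2_add, zpow_add₀ (neg_ne_zero.2 one_ne_zero), map_mul]
    ring

lemma ph_C (σ : M ≃ₐ[F] M) (r : F) :
    ph σ (algebraMap F (HS M) r) = algebraMap F (HS M) r := by
  ext γ
  rw [ph_coeff, HahnSeries.algebraMap_apply, HahnSeries.C_apply]
  by_cases h : γ = 0
  · subst h
    rw [HahnSeries.coeff_single_same]
    have : n2 (0 : G2) = 0 := rfl
    rw [this, zpow_zero, one_mul, σ.commutes]
  · rw [HahnSeries.coeff_single_of_ne h, map_zero, mul_zero]

end

theorem st_PH : ST_PH.{u} := by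
  intro F M _ _ _ σ
  refine ⟨{ toFun := ph σ
            map_one' := ?_
            map_mul' := ph_mul σ
            map_zero' := ?_
            map_add' := ?_
            commutes' := ph_C σ }, fun h γ => rfl⟩
  · have := ph_C σ (1 : F)
    rwa [map_one] at this
  · ext γ
    rw [ph_coeff]
    simp
  · intro x y
    ext γ
    simp only [ph_coeff, HahnSeries.coeff_add, map_add, mul_add]

end Pool.Agent.Helper92.PZ
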